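import Pool.Agent.N507.JM.Split
import Pool.Agent.N704.PJ.Loc2
import Pool.Agent.N849.PM.Loc2
import Pool.Agent.N874.JM.Stm

/-!
# Local analysis over `M` at the primes dividing `D`

Project JM (helper874), part JM-LOC2 (helper507), after helper704's `N704/PJ/Loc2` and helper849's
`N849/PM/Loc2`.
-/

set_option autoImplicit false
set_option linter.all false

open Polynomial IsDedekindDomain WithZero
open Pool.Agent.N874.PP (Ev Sq1 U0)
open Pool.Agent.N874.PM (Lies)
open Pool.Agent.N352.PJ (S_E2 S_EQ S_EXT CV ac prd near)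
open Pool.Agent.N874.JM (LocF)
open scoped Classical NNReal

namespace Pool.Agent.N507.JM

open Pool.Agent.N704.PP (vx sq1_of near_one)
open Pool.Agent.N704.PJ (WV wv_le wv_lt wv_eq eval_lt eq_prod sq_list)
open Pool.Agent.N849.PM (Lies.eq_one resR u0_of_sq1 u0_of_sq1')

section gen

variable {M Ω R O : Type} [Field M] [Field Ω] [Algebra M Ω] [CommRing R]
  [IsDedekindDomain R] [Algebra R M] [IsFractionRing R M] [CommRing O] [IsDedekindDomain O]
  [Algebra O Ω] [IsFractionRing O Ω] {w : HeightOneSpectrum R} {𝔓 : HeightOneSpectrum O}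

/-- Integral elements of the completion are congruent to elements of the ring. -/
theorem resC (w : HeightOneSpectrum R) (y : w.adicCompletion M)
    (hy : Valued.v (Γ₀ := WithZero (Multiplicative ℤ)) y ≤ 1) :
    ∃ r : R, Valued.v (Γ₀ := WithZero (Multiplicative ℤ))
      (y - algebraMap M (w.adicCompletion M) (algebraMap R M r)) < 1 := by
  obtain ⟨x, hx⟩ := near_one w y
  have hx1 : w.valuation M x ≤ 1 := by
    rw [← vx]
    have e : algebraMap M (w.adicCompletion M) x =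
      y - (y - algebraMap M (w.adicCompletion M) x) := by ring
    rw [e]
    exact (Valuation.map_sub _ _ _).trans (max_le hy hx.le)
  obtain ⟨r, hr⟩ := resR (w := w) x hx1
  refine ⟨r, ?_⟩
  have e : y - algebraMap M (w.adicCompletion M) (algebraMap R M r) =
      (y - algebraMap M (w.adicCompletion M) x) -
        algebraMap M (w.adicCompletion M) (algebraMap R M r - x) := by
    rw [map_sub]; ring
  rw [e]
  refine lt_of_le_of_lt (Valuation.map_sub _ _ _) (max_lt hx ?_)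
  rw [vx]
  exact hr

/-- The residue field of the completion is finite. -/
theorem fin_res (𝔓 : HeightOneSpectrum O) [Finite (O ⧸ 𝔓.asIdeal)] :
    Finite (Vi (𝔓.adicCompletion Ω) ⧸ mI (𝔓.adicCompletion Ω)) := by
  let φ : O →+* Vi (𝔓.adicCompletion Ω) :=
    ((algebraMap Ω (𝔓.adicCompletion Ω)).comp (algebraMap O Ω)).codRestrict _ (fun x => by
      show Valued.v (Γ₀ := WithZero (Multiplicative ℤ))
        (algebraMap Ω (𝔓.adicCompletion Ω) (algebraMap O Ω x)) ≤ 1
      rw [vx]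
      exact 𝔓.valuation_le_one x)
  have hle : 𝔓.asIdeal ≤ (mI (𝔓.adicCompletion Ω)).comap φ := by
    intro x hx
    show Valued.v (Γ₀ := WithZero (Multiplicative ℤ))
        (algebraMap Ω (𝔓.adicCompletion Ω) (algebraMap O Ω x)) < 1
    rw [vx, HeightOneSpectrum.valuation_lt_one_iff_mem]
    exact hx
  refine Finite.of_surjective (Ideal.quotientMap (mI (𝔓.adicCompletion Ω)) φ hle) ?_
  intro y
  obtain ⟨y, rfl⟩ := Ideal.Quotient.mk_surjective y
  obtain ⟨r, hr⟩ := resC (M := Ω) 𝔓 (y : 𝔓.adicCompletion Ω) y.2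
  refine ⟨Ideal.Quotient.mk _ r, ?_⟩
  rw [Ideal.quotientMap_mk]
  refine Ideal.Quotient.eq.2 ?_
  rw [← neg_sub, Ideal.neg_mem_iff]
  exact hr

/-- The map to the completion. -/
noncomputable def eM (M Ω : Type) [Field M] [Field Ω] [Algebra M Ω] [Algebra O Ω]
    [IsFractionRing O Ω] (𝔓 : HeightOneSpectrum O) : M →+* 𝔓.adicCompletion Ω :=
  (algebraMap Ω (𝔓.adicCompletion Ω)).comp (algebraMap M Ω)

theorem veM (𝔓 : HeightOneSpectrum O) (a : M) :
    Valued.v (Γ₀ := WithZero (Multiplicative ℤ)) (eM M Ω 𝔓 a) =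
      𝔓.valuation Ω (algebraMap M Ω a) := vx 𝔓 _

theorem eval_eM (𝔓 : HeightOneSpectrum O) (p : M[X]) (x : Ω) :
    (p.map (eM M Ω 𝔓)).eval (algebraMap Ω (𝔓.adicCompletion Ω) x) =
      algebraMap Ω (𝔓.adicCompletion Ω) (aeval x p) := by
  rw [eval_map, eM, ← hom_eval₂, aeval_def]

theorem eM_comp (j : w.adicCompletion M →+* 𝔓.adicCompletion Ω)
    (hj : ∀ x : M, j (algebraMap M (w.adicCompletion M) x) =
      algebraMap Ω (𝔓.adicCompletion Ω) (algebraMap M Ω x)) :
    j.comp (algebraMap M (w.adicCompletion M)) = eM M Ω 𝔓 :=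
  RingHom.ext fun x => hj x

theorem j_big (j : w.adicCompletion M →+* 𝔓.adicCompletion Ω)
    (hj : ∀ y, Valued.v (Γ₀ := WithZero (Multiplicative ℤ)) y < 1 →
      Valued.v (Γ₀ := WithZero (Multiplicative ℤ)) (j y) < 1) {y : w.adicCompletion M}
    (hy : 1 < Valued.v (Γ₀ := WithZero (Multiplicative ℤ)) y) :
    1 < Valued.v (Γ₀ := WithZero (Multiplicative ℤ)) (j y) := by
  have h0 : y ≠ 0 := by
    rintro rfl
    rw [map_zero] at hy
    exact absurd hy (by simp)
  have h1 : Valued.v (Γ₀ := WithZero (Multiplicative ℤ)) (j y⁻¹) < 1 := hj _ (by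
    rw [map_inv₀]
    exact inv_lt_one_of_one_lt₀ hy)
  rw [map_inv₀, map_inv₀] at h1
  have h2 : Valued.v (Γ₀ := WithZero (Multiplicative ℤ)) (j y) ≠ 0 := by
    rw [Valuation.ne_zero_iff, Ne, map_eq_zero]; exact h0
  exact (inv_lt_one₀ (zero_lt_iff.2 h2)).1 h1

/-- Polynomials over the completion of `M` are congruent to polynomials over `R`. -/
theorem approx (j : w.adicCompletion M →+* 𝔓.adicCompletion Ω)
    (hj1 : ∀ x : M, j (algebraMap M (w.adicCompletion M) x) =
      algebraMap Ω (𝔓.adicCompletion Ω) (algebraMap M Ω x))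
    (hj3 : ∀ y, Valued.v (Γ₀ := WithZero (Multiplicative ℤ)) y < 1 →
      Valued.v (Γ₀ := WithZero (Multiplicative ℤ)) (j y) < 1)
    (p : (w.adicCompletion M)[X])
    (hp : ∀ i, Valued.v (Γ₀ := WithZero (Multiplicative ℤ)) (j (p.coeff i)) ≤ 1) :
    ∃ p₀ : R[X], ∀ z : 𝔓.adicCompletion Ω, Valued.v (Γ₀ := WithZero (Multiplicative ℤ)) z ≤ 1 →
      (Valued.v (Γ₀ := WithZero (Multiplicative ℤ)) ((p.map j).eval z) < 1 ↔
        Valued.v (Γ₀ := WithZero (Multiplicative ℤ))
          ((p₀.map ((eM M Ω 𝔓).comp (algebraMap R M))).eval z) < 1) := by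
  have hp' : ∀ i, Valued.v (Γ₀ := WithZero (Multiplicative ℤ)) (p.coeff i) ≤ 1 := by
    intro i
    by_contra h
    exact absurd (j_big j hj3 (not_le.1 h)) (not_lt.2 (hp i))
  choose q hq using fun i => resC w (p.coeff i) (hp' i)
  set ε := (eM M Ω 𝔓).comp (algebraMap R M) with hε
  set p₀ : R[X] := ∑ i ∈ Finset.range (p.natDegree + 1), monomial i (q i) with hp0
  have hc : ∀ i, Valued.v (Γ₀ := WithZero (Multiplicative ℤ))
      ((p.map j - p₀.map ε).coeff i) < 1 := by
    intro i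
    rw [coeff_sub, coeff_map, coeff_map]
    by_cases hi : i < p.natDegree + 1
    · have e : p₀.coeff i = q i := by
        rw [hp0, finset_sum_coeff]
        simp only [coeff_monomial]
        rw [Finset.sum_ite_eq' (Finset.range (p.natDegree + 1)) i q, if_pos (Finset.mem_range.2 hi)]
      have e2 : j (p.coeff i) - ε (q i) =
          j (p.coeff i - algebraMap M (w.adicCompletion M) (algebraMap R M (q i))) := by
        rw [map_sub, hj1]; rfl
      rw [e, e2]
      exact hj3 _ (hq i)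
    · have e : p₀.coeff i = 0 := by
        rw [hp0, finset_sum_coeff]
        refine Finset.sum_eq_zero fun n hn => ?_
        rw [coeff_monomial, if_neg]
        intro h
        rw [Finset.mem_range] at hn
        omega
      rw [e, coeff_eq_zero_of_natDegree_lt (by omega : p.natDegree < i), map_zero, map_zero,
        sub_zero, map_zero]
      exact zero_lt_one
  refine ⟨p₀, fun z hz => ?_⟩
  have h1 := eval_lt (Valued.v (R := 𝔓.adicCompletion Ω)) _ hc hz
  rw [eval_sub] at h1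
  constructor
  · intro h
    have e1 : (p₀.map ε).eval z = (p.map j).eval z -
      ((p.map j).eval z - (p₀.map ε).eval z) := by ring
    rw [e1]
    exact lt_of_le_of_lt (Valuation.map_sub _ _ _) (max_lt h h1)
  · intro h
    have e1 : (p.map j).eval z = (p₀.map ε).eval z +
      ((p.map j).eval z - (p₀.map ε).eval z) := by ring
    rw [e1]
    exact lt_of_le_of_lt (Valuation.map_add _ _ _) (max_lt h h1)

/-- The local condition, evaluated. -/
theorem locF_eval (j : w.adicCompletion M →+* 𝔓.adicCompletion Ω)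
    (hj : ∀ x : M, j (algebraMap M (w.adicCompletion M) x) =
      algebraMap Ω (𝔓.adicCompletion Ω) (algebraMap M Ω x))
    {F : M[X]} {Θ : Ω} (hΘ : aeval Θ F = 0) {h : M[X]} (hl : LocF (w.adicCompletion M) F h) :
    ∃ (l : List ((w.adicCompletion M)[X] × (w.adicCompletion M)[X])) (s : 𝔓.adicCompletion Ω),
      (∀ p ∈ l, p.1.Monic ∧ IsCoprime (p.1.map j) (F.map (eM M Ω 𝔓)) ∧
        p.1.map j ∣ (p.2.map j) ^ 2 - F.map (eM M Ω 𝔓)) ∧
      algebraMap Ω (𝔓.adicCompletion Ω) (aeval Θ h) * (l.map fun p =>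
        (-1) ^ p.1.natDegree * (p.1.map j).eval (algebraMap Ω (𝔓.adicCompletion Ω) Θ)).prod =
          s ^ 2 := by
  obtain ⟨l, s, h1, h2⟩ := hl
  have hF : (F.map (algebraMap M (w.adicCompletion M))).map j = F.map (eM M Ω 𝔓) := by
    rw [Polynomial.map_map, eM_comp j hj]
  refine ⟨l, eval₂ j (algebraMap Ω (𝔓.adicCompletion Ω) Θ) s, fun p hp => ?_, ?_⟩
  · obtain ⟨h3, h4, h5⟩ := h1 p hp
    refine ⟨h3, ?_, ?_⟩
    · have := h4.map (mapRingHom j)
      rw [coe_mapRingHom, hF] at this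
      exact this
    · have := _root_.map_dvd (mapRingHom j) h5
      rw [map_sub, map_pow, coe_mapRingHom, hF] at this
      exact this
  · obtain ⟨q, hq⟩ := h2
    have h3 := congrArg (eval₂ j (algebraMap Ω (𝔓.adicCompletion Ω) Θ)) hq
    have h4 : eval₂ j (algebraMap Ω (𝔓.adicCompletion Ω) Θ)
        (F.map (algebraMap M (w.adicCompletion M))) = 0 := by
      rw [← eval_map, hF, eval_eM, hΘ, map_zero]
    rw [eval₂_sub, eval₂_mul, eval₂_pow, eval₂_mul, h4, zero_mul, sub_eq_zero,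
      Pool.Agent.N849.PM.eval_h j hj] at h3
    rw [← h3, ← coe_eval₂RingHom, map_list_prod, List.map_map]
    congr 3
    funext p
    simp only [Function.comp_apply, map_mul, map_pow, map_neg, map_one, coe_eval₂RingHom, eval_map]
    rw [eval₂_mul, eval₂_pow, eval₂_neg, eval₂_one]

theorem sq1_mul {x y : Ω} (hx : Sq1 𝔓 x) (hy : Sq1 𝔓 y) : Sq1 𝔓 (x * y) := by
  obtain ⟨s, hs⟩ := hx
  obtain ⟨t, ht⟩ := hy
  refine ⟨s * t, ?_⟩
  have vs : 𝔓.valuation Ω (s ^ 2) = 𝔓.valuation Ω x := by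
    have := Valuation.map_sub_eq_of_lt_left (𝔓.valuation Ω) (x := x) (y := x - s ^ 2) hs
    rwa [sub_sub_cancel] at this
  have hx0 : 0 < 𝔓.valuation Ω x := lt_of_le_of_lt zero_le hs
  have hy0 : 0 < 𝔓.valuation Ω y := lt_of_le_of_lt zero_le ht
  have e : x * y - (s * t) ^ 2 = (x - s ^ 2) * y + s ^ 2 * (y - t ^ 2) := by ring
  rw [e]
  refine lt_of_le_of_lt (Valuation.map_add _ _ _) (max_lt ?_ ?_)
  · rw [map_mul, map_mul]
    exact mul_lt_mul_of_pos_right hs hy0
  · rw [map_mul, map_mul, vs]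
    exact mul_lt_mul_of_pos_left ht hx0

theorem aeval_scale {f : M[X]} {θ : Ω} (D : M) (h : aeval θ f = 0) :
    aeval (algebraMap M Ω D * θ) (f.scaleRoots D) = 0 :=
  scaleRoots_aeval_eq_zero h

end gen

theorem loc2 (h3 : S_E2) (h4 : S_EQ) (h5 : S_EXT) (h6 : Pool.Agent.N874.JM.S_CPL) :
    Pool.Agent.N874.JM.S_LOC2 := by
  intro M Ω R O _ _ _ _ _ _ _ _ _ _ _ w 𝔓 _ _ hL h2 g f h' h₀ ϖ D' θ hg hfmon hfdeg h₀m h₀d h₀i
    hfc hroot hθ hvϖ hwD' hsqm hsqD hl hne
  haveI hwm : w.asIdeal.IsMaximal := w.isMaximal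
  have h2Ω : 𝔓.valuation Ω 2 = 1 := by
    have := Lies.eq_one hL h2
    rwa [map_ofNat] at this
  have hvD' : 𝔓.valuation Ω (algebraMap M Ω D') = 1 := Lies.eq_one hL hwD'
  set t := algebraMap Ω (𝔓.adicCompletion Ω) θ with ht
  have vt : Valued.v (Γ₀ := WithZero (Multiplicative ℤ)) t = 1 := by rw [ht, vx, hθ]
  have ht0 : t ≠ 0 := by
    intro h
    rw [h, map_zero] at vt
    exact zero_ne_one vt
  set ε := (eM M Ω 𝔓).comp (algebraMap R M) with hε
  have hft : (f.map (eM M Ω 𝔓)).eval t = 0 := by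
    rw [ht, eval_eM, hroot, map_zero]
  obtain ⟨z, hz1, hz2, hz3, hz4, hz5⟩ := split w.asIdeal ε
    (fun r => by
      show Valued.v (Γ₀ := WithZero (Multiplicative ℤ)) (eM M Ω 𝔓 (algebraMap R M r)) ≤ 1
      rw [veM]
      exact hL.le _ (w.valuation_le_one r))
    (fun r hr => by
      show Valued.v (Γ₀ := WithZero (Multiplicative ℤ)) (eM M Ω 𝔓 (algebraMap R M r)) < 1
      rw [veM]
      exact hL.lt _ ((HeightOneSpectrum.valuation_lt_one_iff_mem w r).2 hr))
    (fin_res (Ω := Ω) 𝔓) (n := 2 * g) (by omega) h₀m h₀d h₀i (F := f.map (eM M Ω 𝔓))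
    (fun j => by
      have e : (f.map (eM M Ω 𝔓)).coeff j - ε ((X * h₀).coeff j) =
          eM M Ω 𝔓 (f.coeff j - algebraMap R M ((X * h₀).coeff j)) := by
        rw [coeff_map, map_sub]; rfl
      rw [e, veM]
      exact hL.lt _ (hfc j)) vt hft
  obtain ⟨j, hj1, hj2, hj3⟩ := h6 M Ω R O w 𝔓 hL
  obtain ⟨v, c, hc, hw⟩ := h5 O Ω 𝔓 h2Ω
  change WV v c at hw
  set Θ : Ω := algebraMap M Ω (ϖ * D') * θ with hΘ
  have hΘ0 : aeval Θ (f.scaleRoots (ϖ * D')) = 0 := aeval_scale _ hroot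
  obtain ⟨l, s, hl1, hl2⟩ := locF_eval j hj1 hΘ0 hl
  set α' := aeval Θ h' with hα'
  set α := algebraMap Ω (𝔓.adicCompletion Ω) α' with hα
  have hα0 : α ≠ 0 := by rw [hα, Ne, map_eq_zero]; exact hne
  set D := eM M Ω 𝔓 (ϖ * D') with hDd
  have vD : Valued.v (Γ₀ := WithZero (Multiplicative ℤ)) D = exp (-1 : ℤ) := by
    rw [hDd, veM, map_mul, map_mul, hvϖ, hvD', mul_one]
  have hD0 : D ≠ 0 := by
    intro h
    rw [h, map_zero] at vD
    exact exp_ne_zero vD.symm
  have hΘE : algebraMap Ω (𝔓.adicCompletion Ω) Θ = D * t := by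
    rw [hΘ, map_mul]; rfl
  rw [hΘE] at hl2
  have hzinj : Function.Injective z := by
    intro i i' hii
    by_contra hne'
    have := hz4 i i' hne'
    rw [hii, sub_self, map_zero] at this
    exact zero_ne_one this
  have hfm : (f.map (eM M Ω 𝔓)).Monic := hfmon.map _
  have hfd : (f.map (eM M Ω 𝔓)).natDegree = 2 * g + 1 := by
    rw [hfmon.natDegree_map, hfdeg]
  have hfp := eq_prod hfm hfd hzinj hz1
  have hFm : ((f.scaleRoots (ϖ * D')).map (eM M Ω 𝔓)).Monic :=
    ((monic_scaleRoots_iff _).2 hfmon).map _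
  have hFd : ((f.scaleRoots (ϖ * D')).map (eM M Ω 𝔓)).natDegree = 2 * g + 1 := by
    rw [Monic.natDegree_map ((monic_scaleRoots_iff _).2 hfmon), natDegree_scaleRoots, hfdeg]
  have hFp : (f.scaleRoots (ϖ * D')).map (eM M Ω 𝔓) = prd D z := by
    refine eq_prod hFm hFd (r := fun i => D * z i) ?_ ?_
    · intro i i' hii
      exact hzinj (mul_left_cancel₀ hD0 hii)
    · intro i
      rw [eval_map]
      refine scaleRoots_eval₂_eq_zero _ ?_
      rw [← eval_map]
      exact hz1 i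
  obtain ⟨i₁, hi₁⟩ : ∃ i, t = z i := by
    have h7 := hft
    rw [hfp, eval_prod, Finset.prod_eq_zero_iff] at h7
    obtain ⟨i, -, hi⟩ := h7
    rw [eval_sub, eval_X, eval_C, sub_eq_zero] at hi
    exact ⟨i, hi⟩
  have hi₁0 : i₁ ≠ 0 := by
    intro h
    rw [← h, ← hi₁, vt] at hz3
    exact lt_irrefl _ hz3
  have hjD : j (algebraMap M (w.adicCompletion M) (ϖ * D')) = D := by
    rw [hDd, hj1]; rfl
  have hQD0 : algebraMap M (w.adicCompletion M) (ϖ * D') ≠ 0 := by
    intro h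
    rw [h, map_zero] at hjD
    exact hD0 hjD.symm
  have hwD : v (ac D) = c := by
    rw [ac, hw D 1 vD, zpow_one]
  -- the factors
  have key : ∀ p ∈ l, IsSquare ((-1) ^ p.1.natDegree * (p.1.map j).eval (D * t)) ∨
      IsSquare ((-1) ^ p.1.natDegree * (p.1.map j).eval (D * t) * (-(D * t))) := by
    intro p hp
    obtain ⟨h7, h8, h9⟩ := hl1 p hp
    rw [hFp] at h8 h9
    have h10 := h3 (𝔓.adicCompletion Ω) v c hc g D z (p.1.map j) (p.2.map j) hg hwD
      (fun i => (wv_le hc hw _).2 (hz2 i)) ((wv_lt hc hw _).2 hz3)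
      (fun i i' hii => (wv_eq hc hw _).2 (hz4 i i' hii)) (h7.map j) h8 h9 ?_ i₁ hi₁0
    · rw [natDegree_map, ← hi₁] at h10
      exact h10
    · intro i i' hi hi'
      rw [← hjD]
      refine h4 _ _ j v _ (z i) (z i') p.1 hQD0 h7.ne_zero ((wv_le hc hw _).2 (hz2 i))
        ((wv_le hc hw _).2 (hz2 i')) ?_
      intro q hq
      obtain ⟨p₀, hp₀⟩ := approx j hj1 hj3 q fun n => (wv_le hc hw _).1 (hq n)
      rw [wv_lt hc hw, wv_lt hc hw, hp₀ _ (hz2 i), hp₀ _ (hz2 i'), hz5 i hi, hz5 i' hi']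
  have hDt0 : -(D * t) ≠ 0 := neg_ne_zero.2 (mul_ne_zero hD0 ht0)
  have hprod := sq_list hDt0 (fun p : (w.adicCompletion M)[X] × (w.adicCompletion M)[X] =>
    (-1) ^ p.1.natDegree * (p.1.map j).eval (D * t)) l key
  have hprod0 : (l.map fun p => (-1) ^ p.1.natDegree * (p.1.map j).eval (D * t)).prod ≠ 0 := by
    intro h7
    rw [List.prod_eq_zero_iff, List.mem_map] at h7
    obtain ⟨p, hp, hp0⟩ := h7
    have h8 : (p.1.map j).eval (D * t) = 0 := by
      rcases mul_eq_zero.1 hp0 with h9 | h9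
      · exact absurd h9 (pow_ne_zero _ (neg_ne_zero.2 one_ne_zero))
      · exact h9
    obtain ⟨-, ⟨a, b, hab⟩, -⟩ := hl1 p hp
    have h9 := congrArg (eval (D * t)) hab
    have h10 : ((f.scaleRoots (ϖ * D')).map (eM M Ω 𝔓)).eval (D * t) = 0 := by
      rw [← hΘE, eval_eM, hΘ0, map_zero]
    rw [eval_add, eval_mul, eval_mul, h8, h10, mul_zero, mul_zero, add_zero, eval_one] at h9
    exact zero_ne_one h9
  set pr := (l.map fun p => (-1) ^ p.1.natDegree * (p.1.map j).eval (D * t)).prod with hpr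
  rcases hprod with ⟨r, hr⟩ | ⟨r, hr⟩
  · have hr' : pr = r * r := hr
    have hr0 : r ≠ 0 := by
      rintro rfl
      rw [mul_zero] at hr'
      exact hprod0 hr'
    refine u0_of_sq1 (sq1_of 𝔓 α' (s / r) ?_)
    have e : algebraMap Ω (𝔓.adicCompletion Ω) α' - (s / r) ^ 2 = 0 := by
      rw [← hα, div_pow, ← hl2, hr']
      field_simp
      ring
    rw [e, map_zero]
    exact zero_lt_iff.2 ((Valuation.ne_zero_iff _).2 hα0)
  · have hr' : pr * (-(D * t)) = r * r := hr
    have hr0 : r ≠ 0 := by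
      rintro rfl
      rw [mul_zero] at hr'
      exact mul_ne_zero hprod0 hDt0 hr'
    have hodd : ¬ Ev 𝔓 (algebraMap M Ω ϖ * θ) := by
      rintro ⟨y, hy⟩
      rw [map_mul, hvϖ, hθ, mul_one] at hy
      refine Pool.Agent.N704.PP.exp_odd (x := 1) (y := 𝔓.valuation Ω y) (n := -1) ⟨-1, by norm_num⟩
        one_ne_zero ?_
      rw [one_pow, one_mul]
      exact hy
    refine u0_of_sq1' hne hodd ?_
    -- `α (ϖ θ) (-D')` is a square
    obtain ⟨σ, hσ⟩ : Sq1 𝔓 (-(algebraMap M Ω D')) := by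
      have := sq1_mul hsqm hsqD
      rwa [neg_one_mul] at this
    have v2 : 𝔓.valuation Ω (-(algebraMap M Ω D')) = 1 := by rw [Valuation.map_neg, hvD']
    have vσ : 𝔓.valuation Ω (σ ^ 2) = 1 := by
      have := Valuation.map_sub_eq_of_lt_left (𝔓.valuation Ω) (x := -(algebraMap M Ω D'))
        (y := -(algebraMap M Ω D') - σ ^ 2) hσ
      rwa [sub_sub_cancel, v2] at this
    rw [v2] at hσ
    have hσ0 : σ ≠ 0 := by
      rintro rfl
      rw [zero_pow two_ne_zero, map_zero] at vσ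
      exact zero_ne_one vσ
    set σ' := algebraMap Ω (𝔓.adicCompletion Ω) σ with hσ'
    have hσ'0 : σ' ≠ 0 := by rw [hσ', Ne, map_eq_zero]; exact hσ0
    set β := α' * (algebraMap M Ω ϖ * θ) with hβ
    have hβ0 : algebraMap Ω (𝔓.adicCompletion Ω) β ≠ 0 := by
      rw [Ne, map_eq_zero, hβ]
      refine mul_ne_zero hne (mul_ne_zero ?_ ?_)
      · intro h
        rw [h, map_zero] at hvϖ
        exact exp_ne_zero hvϖ.symm
      · intro h
        rw [h, map_zero] at hθ
        exact zero_ne_one hθ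
    have e1 : algebraMap Ω (𝔓.adicCompletion Ω) (β * -(algebraMap M Ω D')) =
        α * (-(D * t)) := by
      rw [hβ, hα, map_mul, map_mul, map_mul, hDd, ht]
      simp only [eM, RingHom.comp_apply, map_neg, map_mul]
      ring
    have e2 : algebraMap Ω (𝔓.adicCompletion Ω) (β * -(algebraMap M Ω D')) =
        (s * (-(D * t)) / r) ^ 2 := by
      rw [e1, div_pow, eq_div_iff (pow_ne_zero 2 hr0), pow_two r, ← hr', mul_pow, ← hl2]
      ring
    refine sq1_of 𝔓 β ((s * (-(D * t)) / r) / σ') ?_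
    have e3 : algebraMap Ω (𝔓.adicCompletion Ω) β - ((s * (-(D * t)) / r) / σ') ^ 2 =
        -(algebraMap Ω (𝔓.adicCompletion Ω) β *
          algebraMap Ω (𝔓.adicCompletion Ω) (-(algebraMap M Ω D') - σ ^ 2) / σ' ^ 2) := by
      have e2' : algebraMap Ω (𝔓.adicCompletion Ω) β *
          algebraMap Ω (𝔓.adicCompletion Ω) (-(algebraMap M Ω D')) =
          (s * (-(D * t)) / r) ^ 2 := by rw [← map_mul]; exact e2
      rw [div_pow (s * (-(D * t)) / r), ← e2', map_sub, map_pow, ← hσ']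
      field_simp
      ring
    rw [e3, Valuation.map_neg, map_div₀, map_mul, map_pow, hσ', ← map_pow, ← map_pow, vx 𝔓 (σ ^ 2),
      vσ, div_one, vx 𝔓 (_ - _)]
    calc _ < Valued.v (algebraMap Ω (𝔓.adicCompletion Ω) β) * 1 :=
          mul_lt_mul_of_pos_left hσ (zero_lt_iff.2 ((Valuation.ne_zero_iff _).2 hβ0))
      _ = _ := mul_one _

end Pool.Agent.N507.JM
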