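import Pool.Agent.N704.PJ.Split

/-!
# The splitting of a polynomial over a complete valued field

Project JM (helper874), part of JM-LOC2 (helper507), after helper704's `N704/PJ/Split`.
-/

set_option autoImplicit false
set_option linter.all false

open Polynomial IsDedekindDomain WithZero
open scoped Classical NNReal

namespace Pool.Agent.N507.JM

open Pool.Agent.N704.PJ (roots_ff cop_X hensel lip eval_lt eval_le)

section

variable (E : Type) [Field E] [Valued E (WithZero (Multiplicative ℤ))]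

/-- The valuation ring. -/
abbrev Vi : Subring E := (Valued.v : Valuation E (WithZero (Multiplicative ℤ))).integer

/-- The maximal ideal of the valuation ring. -/
def mI : Ideal (Vi E) where
  carrier := {x | Valued.v (Γ₀ := WithZero (Multiplicative ℤ)) (x : E) < 1}
  add_mem' := by
    intro a b ha hb
    have ha' : Valued.v (Γ₀ := WithZero (Multiplicative ℤ)) (a : E) < 1 := ha
    have hb' : Valued.v (Γ₀ := WithZero (Multiplicative ℤ)) (b : E) < 1 := hb
    show Valued.v (Γ₀ := WithZero (Multiplicative ℤ)) ((a + b : Vi E) : E) < 1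
    rw [Subring.coe_add]
    exact lt_of_le_of_lt (Valuation.map_add _ _ _) (max_lt ha' hb')
  zero_mem' := by
    show Valued.v (Γ₀ := WithZero (Multiplicative ℤ)) ((0 : Vi E) : E) < 1
    rw [ZeroMemClass.coe_zero, map_zero]
    exact zero_lt_one
  smul_mem' := by
    intro c x hx
    have hx' : Valued.v (Γ₀ := WithZero (Multiplicative ℤ)) (x : E) < 1 := hx
    show Valued.v (Γ₀ := WithZero (Multiplicative ℤ)) ((c * x : Vi E) : E) < 1
    rw [Subring.coe_mul, map_mul]
    exact lt_of_le_of_lt (mul_le_mul' c.2 le_rfl) (by rw [one_mul]; exact hx')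

theorem mem_mI (x : Vi E) :
    x ∈ mI E ↔ Valued.v (Γ₀ := WithZero (Multiplicative ℤ)) (x : E) < 1 := Iff.rfl

theorem mI_max : (mI E).IsMaximal := by
  rw [Ideal.isMaximal_iff]
  refine ⟨?_, ?_⟩
  · rw [mem_mI, OneMemClass.coe_one, map_one]
    exact lt_irrefl _
  · intro J x hJ hx hxJ
    rw [mem_mI, not_lt] at hx
    have h1 : Valued.v (Γ₀ := WithZero (Multiplicative ℤ)) (x : E) = 1 := le_antisymm x.2 hx
    have h0 : (x : E) ≠ 0 := by
      intro h
      rw [h, map_zero] at h1
      exact zero_ne_one h1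
    have h2 : (1 : Vi E) = (⟨(x : E)⁻¹, by
        show Valued.v (Γ₀ := WithZero (Multiplicative ℤ)) (x : E)⁻¹ ≤ 1
        rw [map_inv₀, h1, inv_one]⟩ : Vi E) * x := by
      apply Subtype.ext
      rw [Subring.coe_mul, OneMemClass.coe_one]
      exact (inv_mul_cancel₀ h0).symm
    rw [h2]
    exact J.mul_mem_left _ hxJ

end

theorem vnat' {F : Type} [Field F] [Valued F (WithZero (Multiplicative ℤ))] (n : ℕ) :
    Valued.v (Γ₀ := WithZero (Multiplicative ℤ)) (n : F) ≤ 1 := by
  induction n with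
  | zero => simp
  | succ n ih =>
    rw [Nat.cast_succ]
    exact (Valuation.map_add _ _ _).trans (max_le ih (by rw [map_one]))

/-- The splitting of `F` over a complete field. -/
theorem split {E : Type} [Field E] [Valued E (WithZero (Multiplicative ℤ))] [CompleteSpace E]
    [T0Space E] {R : Type} [CommRing R] (w : Ideal R) [hw : w.IsMaximal] (φ : R →+* E)
    (hφ1 : ∀ r, Valued.v (Γ₀ := WithZero (Multiplicative ℤ)) (φ r) ≤ 1)
    (hφ2 : ∀ r ∈ w, Valued.v (Γ₀ := WithZero (Multiplicative ℤ)) (φ r) < 1)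
    (hfin : Finite (Vi E ⧸ mI E)) {n : ℕ} (hn : 2 ≤ n) {h₀ : R[X]} (hm : h₀.Monic)
    (hd : h₀.natDegree = n) (hi : Irreducible (h₀.map (Ideal.Quotient.mk w))) {F : E[X]}
    (hF : ∀ j, Valued.v (Γ₀ := WithZero (Multiplicative ℤ))
      (F.coeff j - φ ((X * h₀).coeff j)) < 1) {t : E}
    (ht : Valued.v (Γ₀ := WithZero (Multiplicative ℤ)) t = 1) (hroot : F.eval t = 0) :
    ∃ z : Fin (n + 1) → E,
      (∀ i, F.eval (z i) = 0) ∧
      (∀ i, Valued.v (Γ₀ := WithZero (Multiplicative ℤ)) (z i) ≤ 1) ∧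
      Valued.v (Γ₀ := WithZero (Multiplicative ℤ)) (z 0) < 1 ∧
      (∀ i j, i ≠ j → Valued.v (Γ₀ := WithZero (Multiplicative ℤ)) (z i - z j) = 1) ∧
      ∀ i, i ≠ 0 → ∀ p : R[X],
        (Valued.v (Γ₀ := WithZero (Multiplicative ℤ)) ((p.map φ).eval (z i)) < 1 ↔
          h₀.map (Ideal.Quotient.mk w) ∣ p.map (Ideal.Quotient.mk w)) := by
  haveI hmax := mI_max E
  letI f1 : Field (R ⧸ w) := Ideal.Quotient.field _
  letI f2 : Field (Vi E ⧸ mI E) := Ideal.Quotient.field _
  let φ' : R →+* Vi E := φ.codRestrict _ hφ1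
  have hle : w ≤ (mI E).comap φ' := fun r hr => hφ2 r hr
  let ι : (R ⧸ w) →+* (Vi E ⧸ mI E) := Ideal.quotientMap (mI E) φ' hle
  letI alg : Algebra (R ⧸ w) (Vi E ⧸ mI E) := ι.toAlgebra
  set mQ := Ideal.Quotient.mk w with hmQ
  set ρ := Ideal.Quotient.mk (mI E) with hρd
  have hcomp : ι.comp mQ = ρ.comp φ' := RingHom.ext fun x => rfl
  have hρ : ∀ x : Vi E, ρ x = 0 ↔ Valued.v (Γ₀ := WithZero (Multiplicative ℤ)) (x : E) < 1 := by
    intro x
    rw [hρd, Ideal.Quotient.eq_zero_iff_mem, mem_mI]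
  have hev : ∀ (p : R[X]) (x : Vi E), aeval (ρ x) (p.map mQ) = ρ (eval₂ φ' x p) := by
    intro p x
    rw [aeval_def, eval₂_map]
    change eval₂ (ι.comp mQ) (ρ x) p = _
    rw [hcomp, ← hom_eval₂]
  have hevE : ∀ (p : R[X]) (x : Vi E), ((eval₂ φ' x p : Vi E) : E) = (p.map φ).eval (x : E) := by
    intro p x
    have h1 := hom_eval₂ p φ' (Vi E).subtype x
    rw [eval_map]
    exact h1
  have hkey : ∀ (p : R[X]) (x : Vi E), Valued.v (Γ₀ := WithZero (Multiplicative ℤ))
      ((p.map φ).eval (x : E)) < 1 ↔ aeval (ρ x) (p.map mQ) = 0 := by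
    intro p x
    rw [hev, hρ, hevE]
  set H := h₀.map mQ with hH
  have hHm : H.Monic := hm.map _
  have hHd : H.natDegree = n := by rw [hH, hm.natDegree_map, hd]
  set G : R[X] := X * h₀ with hG
  have hGH : G.map mQ = X * H := by rw [hG, Polynomial.map_mul, map_X]
  -- evaluation of `F` and of `G`
  have hFG : ∀ j, Valued.v (Γ₀ := WithZero (Multiplicative ℤ)) ((F - G.map φ).coeff j) < 1 := by
    intro j
    rw [coeff_sub, coeff_map]
    exact hF j
  have hFG' : ∀ j, Valued.v (Γ₀ := WithZero (Multiplicative ℤ))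
      ((derivative F - derivative (G.map φ)).coeff j) < 1 := by
    intro j
    rw [← derivative_sub, coeff_derivative, map_mul]
    refine lt_of_le_of_lt (mul_le_mul' le_rfl ?_) (by rw [mul_one]; exact hFG (j + 1))
    have : ((j : E) + 1) = ((j + 1 : ℕ) : E) := by push_cast; rfl
    rw [this]
    exact Pool.Agent.N507.JM.vnat' _
  have hGc : ∀ j, Valued.v (Γ₀ := WithZero (Multiplicative ℤ)) ((G.map φ).coeff j) ≤ 1 := by
    intro j
    rw [coeff_map]
    exact hφ1 _
  have hFc : ∀ j, Valued.v (Γ₀ := WithZero (Multiplicative ℤ)) (F.coeff j) ≤ 1 := by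
    intro j
    have e1 : F.coeff j = (F - G.map φ).coeff j + (G.map φ).coeff j := by
      rw [coeff_sub]; ring
    rw [e1]
    exact (Valuation.map_add _ _ _).trans (max_le (hFG j).le (hGc j))
  have ht1 : aeval (ρ ⟨t, ht.le⟩) (G.map mQ) = 0 := by
    rw [← hkey]
    have h1 := eval_lt (Valued.v (R := E)) _ hFG ht.le
    rw [eval_sub, hroot, zero_sub, Valuation.map_neg] at h1
    exact h1
  have ht0 : ρ ⟨t, ht.le⟩ ≠ 0 := by
    rw [Ne, hρ]
    show ¬ (Valued.v (Γ₀ := WithZero (Multiplicative ℤ)) t < 1)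
    rw [ht]
    exact lt_irrefl _
  have ht2 : aeval (ρ ⟨t, ht.le⟩) H = 0 := by
    rw [hGH, map_mul, aeval_X] at ht1
    exact (mul_eq_zero.1 ht1).resolve_left ht0
  obtain ⟨e, he1, he2, he3⟩ := roots_ff hHm hi hHd hn ht2
  have hminp : ∀ i, i ≠ 0 → minpoly (R ⧸ w) (e i) = H := fun i hi' =>
    (minpoly.eq_of_irreducible_of_monic hi (he3 i hi') hHm).symm
  choose a ha using fun i => Ideal.Quotient.mk_surjective (I := mI E) (e i)
  have hXH : ∀ i, aeval (e i) (X * H) = 0 := by
    intro i
    rw [map_mul, aeval_X]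
    by_cases hi' : i = 0
    · rw [hi', he2, zero_mul]
    · rw [he3 i hi', mul_zero]
  have hfin' : Finite (R ⧸ w) := Finite.of_injective _ ι.injective
  have hsep : (X * H : (R ⧸ w)[X]).Separable := by
    refine Separable.mul separable_X (PerfectField.separable_of_irreducible hi)
      (cop_X hi (by omega))
  have hz : ∀ i, ∃ z : E, F.eval z = 0 ∧
      Valued.v (Γ₀ := WithZero (Multiplicative ℤ)) (z - (a i : E)) < 1 := by
    intro i
    refine hensel _ hFc (a i).2 ?_ ?_
    · have e1 : F.eval (a i : E) = (F - G.map φ).eval (a i : E) + (G.map φ).eval (a i : E) := by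
        rw [eval_sub]; ring
      rw [e1]
      refine lt_of_le_of_lt (Valuation.map_add _ _ _)
        (max_lt (eval_lt (Valued.v (R := E)) _ hFG (a i).2) ?_)
      rw [hkey, ha, hGH, hXH]
    · have e1 : (derivative F).eval (a i : E) = (derivative F - derivative (G.map φ)).eval (a i : E) +
          (derivative (G.map φ)).eval (a i : E) := by
        rw [eval_sub]; ring
      have h1 : Valued.v (Γ₀ := WithZero (Multiplicative ℤ))
          ((derivative (G.map φ)).eval (a i : E)) = 1 := by
        rw [derivative_map]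
        refine le_antisymm (eval_le (Valued.v (R := E)) _ (fun j => ?_) (a i).2) (not_lt.1 ?_)
        · rw [coeff_map]
          exact hφ1 _
        · rw [hkey, ha, ← derivative_map, hGH]
          exact hsep.aeval_derivative_ne_zero (hXH i)
      rw [e1, Valuation.map_add_eq_of_lt_right _ (by
        rw [h1]
        exact eval_lt (Valued.v (R := E)) _ hFG' (a i).2), h1]
  choose z hz1 hz2 using hz
  have hzle : ∀ i, Valued.v (Γ₀ := WithZero (Multiplicative ℤ)) (z i) ≤ 1 := by
    intro i
    have e1 : z i = (z i - (a i : E)) + (a i : E) := by ring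
    rw [e1]
    exact (Valuation.map_add _ _ _).trans (max_le (hz2 i).le (a i).2)
  refine ⟨z, hz1, hzle, ?_, ?_, ?_⟩
  · have e1 : z 0 = (z 0 - (a 0 : E)) + (a 0 : E) := by ring
    rw [e1]
    refine lt_of_le_of_lt (Valuation.map_add _ _ _) (max_lt (hz2 0) ?_)
    rw [← hρ, ha, he2]
  · intro i j hij
    have e1 : z i - z j = ((a i - a j : Vi E) : E) +
        ((z i - (a i : E)) - (z j - (a j : E))) := by
      rw [AddSubgroupClass.coe_sub]; ring
    have h1 : Valued.v (Γ₀ := WithZero (Multiplicative ℤ)) ((a i - a j : Vi E) : E) = 1 := by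
      refine le_antisymm (a i - a j).2 (not_lt.1 ?_)
      rw [← hρ, map_sub, ha, ha, sub_eq_zero]
      exact fun h => hij (he1 h)
    rw [e1, Valuation.map_add_eq_of_lt_left _ (by
      rw [h1]
      exact lt_of_le_of_lt (Valuation.map_sub _ _ _) (max_lt (hz2 i) (hz2 j))), h1]
  · intro i hi' p
    have hpc : ∀ n, Valued.v (Γ₀ := WithZero (Multiplicative ℤ)) ((p.map φ).coeff n) ≤ 1 := by
      intro i
      rw [coeff_map]
      exact hφ1 _
    have h1 := lip (Valued.v (R := E)) _ hpc (hzle i) (a i).2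
    have h2 := lt_of_le_of_lt h1 (hz2 i)
    have h3 : Valued.v (Γ₀ := WithZero (Multiplicative ℤ)) ((p.map φ).eval (z i)) < 1 ↔
        Valued.v (Γ₀ := WithZero (Multiplicative ℤ)) ((p.map φ).eval (a i : E)) < 1 := by
      constructor
      · intro h
        have e1 : (p.map φ).eval (a i : E) = (p.map φ).eval (z i) -
          ((p.map φ).eval (z i) - (p.map φ).eval (a i : E)) := by ring
        rw [e1]
        exact lt_of_le_of_lt (Valuation.map_sub _ _ _) (max_lt h h2)
      · intro h
        have e1 : (p.map φ).eval (z i) = (p.map φ).eval (a i : E) +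
          ((p.map φ).eval (z i) - (p.map φ).eval (a i : E)) := by ring
        rw [e1]
        exact lt_of_le_of_lt (Valuation.map_add _ _ _) (max_lt h h2)
    rw [h3, hkey, ha, ← hminp i hi']
    exact minpoly.dvd_iff.symm

end Pool.Agent.N507.JM
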